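import Pool.Agent.H78.BNim

open Pool.Agent.H78.BNim

theorem Pool.Agent.Results.MP_7e332b_co.AllThree.result (x : Fin 3 → ℕ) :
    (BlockerWins x ↔ x 0 ^^^ x 1 ^^^ x 2 ≤ 1) ∧ (MoverWins x ↔ ¬ x 0 ^^^ x 1 ^^^ x 2 ≤ 1) :=
  main x
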